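import Pool.Agent.Helper23.MC.Goals3

set_option autoImplicit false

open Finset Filter Topology

open scoped Classical

namespace Pool.Agent.Helper58.MC

open _root_.Pool.Agent.Helper23.MC
open _root_.Pool.Agent.Helper88.CR (Rec)

theorem core (k d : ℕ) (H : Finset ℕ) (B : ℕ) (hB : ∀ h ∈ H, h ≤ B) (hd : ∀ h ∈ H, d ∣ h)
    (b x C : ℝ) (hb : (B : ℝ) ≤ b) (hC : (B : ℝ) ≤ C * d) :
    ({m : ℕ | (m : ℝ) + b ≤ x ∧
        (∀ q : ℕ, q.Prime → m ≤ q → (q : ℝ) ≤ m + b → ∃ h ∈ H, q = m + h) ∧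
        k < (H.filter (fun h => (m + h).Prime)).card}.ncard)
      ≤ ({n : ℕ | (Nat.nth Nat.Prime (n + k) : ℝ) ≤ x ∧
        (Nat.nth Nat.Prime (n + k) : ℝ) ≤ Nat.nth Nat.Prime n + C * d ∧
        ∀ i < k, d ∣ Nat.nth Nat.Prime (n + i + 1) - Nat.nth Nat.Prime (n + i)}.ncard)
        * H.card := by
  have hinf : (setOf Nat.Prime).Infinite := Nat.infinite_setOf_prime
  have hmono := Nat.nth_strictMono hinf
  set S := {n : ℕ | (Nat.nth Nat.Prime (n + k) : ℝ) ≤ x ∧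
        (Nat.nth Nat.Prime (n + k) : ℝ) ≤ Nat.nth Nat.Prime n + C * d ∧
        ∀ i < k, d ∣ Nat.nth Nat.Prime (n + i + 1) - Nat.nth Nat.Prime (n + i)} with hS
  have hfin : S.Finite := by
    refine (Set.finite_Iic ⌊x⌋₊).subset ?_
    intro n hn
    have h1 : (Nat.nth Nat.Prime (n + k) : ℝ) ≤ x := hn.1
    have h2 : n + k ≤ Nat.nth Nat.Prime (n + k) := hmono.le_apply
    have h3 : n ≤ Nat.nth Nat.Prime (n + k) := le_trans (Nat.le_add_right _ _) h2
    exact Set.mem_Iic.2 (Nat.le_floor (le_trans (by exact_mod_cast h3) h1))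
  have hfin2 : (S ×ˢ (H : Set ℕ)).Finite := hfin.prod H.finite_toSet
  have hsub : {m : ℕ | (m : ℝ) + b ≤ x ∧
        (∀ q : ℕ, q.Prime → m ≤ q → (q : ℝ) ≤ m + b → ∃ h ∈ H, q = m + h) ∧
        k < (H.filter (fun h => (m + h).Prime)).card}
      ⊆ (fun z : ℕ × ℕ => Nat.nth Nat.Prime z.1 - z.2) '' (S ×ˢ (H : Set ℕ)) := by
    rintro m ⟨hm1, hm2, hm3⟩
    set n := Nat.count Nat.Prime m with hn
    have hge : ∀ i, m ≤ Nat.nth Nat.Prime (n + i) := fun i =>
      le_trans (Nat.le_nth_count hinf m) (hmono.monotone (Nat.le_add_right _ _))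
    have hlt : ∀ i ≤ k, Nat.nth Nat.Prime (n + i) < m + (B + 1) := by
      intro i hi
      refine Nat.nth_lt_of_lt_count ?_
      rw [Nat.count_add, ← hn]
      refine Nat.add_lt_add_left ?_ n
      rw [Nat.count_eq_card_filter_range]
      refine lt_of_le_of_lt hi (lt_of_lt_of_le hm3 (Finset.card_le_card ?_))
      intro h hh
      rw [Finset.mem_filter] at hh ⊢
      exact ⟨Finset.mem_range.2 (Nat.lt_succ_of_le (hB h hh.1)), hh.2⟩
    have hkey : ∀ i ≤ k, ∃ h ∈ H, Nat.nth Nat.Prime (n + i) = m + h := by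
      intro i hi
      refine hm2 _ (Nat.prime_nth_prime _) (hge i) ?_
      have h1 : Nat.nth Nat.Prime (n + i) ≤ m + B := by
        have := hlt i hi
        omega
      calc (Nat.nth Nat.Prime (n + i) : ℝ) ≤ ((m + B : ℕ) : ℝ) := by exact_mod_cast h1
        _ = m + B := by push_cast; ring
        _ ≤ m + b := by linarith
    obtain ⟨h0, hh0, e0⟩ := hkey 0 (Nat.zero_le _)
    rw [Nat.add_zero] at e0
    obtain ⟨hk, hhk, ek⟩ := hkey k le_rfl
    have hkB : (hk : ℝ) ≤ B := by exact_mod_cast hB hk hhk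
    refine ⟨(n, h0), ⟨⟨?_, ?_, ?_⟩, hh0⟩, ?_⟩
    · show (Nat.nth Nat.Prime (n + k) : ℝ) ≤ x
      rw [ek]; push_cast; linarith
    · show (Nat.nth Nat.Prime (n + k) : ℝ) ≤ Nat.nth Nat.Prime n + C * d
      rw [ek, e0]; push_cast
      have : (0 : ℝ) ≤ h0 := Nat.cast_nonneg _
      linarith
    · intro i hi
      show d ∣ Nat.nth Nat.Prime (n + i + 1) - Nat.nth Nat.Prime (n + i)
      obtain ⟨h1, hh1, e1⟩ := hkey (i + 1) hi
      obtain ⟨h2, hh2, e2⟩ := hkey i hi.le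
      rw [← Nat.add_assoc] at e1
      rw [e1, e2, Nat.add_sub_add_left]
      exact Nat.dvd_sub (hd h1 hh1) (hd h2 hh2)
    · show Nat.nth Nat.Prime n - h0 = m
      rw [e0]; omega
  calc _ ≤ ((fun z : ℕ × ℕ => Nat.nth Nat.Prime z.1 - z.2) '' (S ×ˢ (H : Set ℕ))).ncard :=
        Set.ncard_le_ncard hsub (hfin2.image _)
    _ ≤ (S ×ˢ (H : Set ℕ)).ncard := Set.ncard_image_le hfin2
    _ = S.ncard * H.card := by rw [Set.ncard_prod, Set.ncard_coe_finset]

theorem adm (K d : ℕ) (l : ℕ) (hl : l.Prime) :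
    ∃ a : ℕ, ∀ h ∈ (Finset.range K).image (fun i => i * (K.factorial * d)),
      ¬ h ≡ a [MOD l] := by
  by_cases hlK : l ≤ K
  · refine ⟨1, ?_⟩
    intro h hh hmod
    rw [Finset.mem_image] at hh
    obtain ⟨i, -, rfl⟩ := hh
    have h1 : l ∣ i * (K.factorial * d) :=
      Dvd.dvd.mul_left (Dvd.dvd.mul_right ((Nat.Prime.dvd_factorial hl).2 hlK) _) _
    have h2 : i * (K.factorial * d) ≡ 0 [MOD l] := (Nat.modEq_zero_iff_dvd).2 h1
    have h3 : 0 ≡ 1 [MOD l] := h2.symm.trans hmod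
    have h4 : l ∣ 1 := by
      have := (Nat.modEq_iff_dvd' (Nat.zero_le 1)).1 h3
      simpa using this
    exact hl.one_lt.ne' (Nat.dvd_one.1 h4)
  · push Not at hlK
    set H := (Finset.range K).image (fun i => i * (K.factorial * d)) with hH
    have hc : (H.image (fun h => h % l)).card < (Finset.range l).card := by
      refine lt_of_le_of_lt Finset.card_image_le (lt_of_le_of_lt Finset.card_image_le ?_)
      simpa using hlK
    obtain ⟨a, ha, hna⟩ := Finset.exists_mem_notMem_of_card_lt_card hc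
    refine ⟨a, fun h hh hmod => hna ?_⟩
    rw [Finset.mem_image]
    refine ⟨h, hh, ?_⟩
    have h5 : h % l = a % l := hmod
    rw [h5, Nat.mod_eq_of_lt (Finset.mem_range.1 ha)]

theorem ev (K : ℕ) : ∃ X : ℝ, ∀ x : ℝ, X ≤ x → 0 < x ∧
    (K : ℝ) * x ^ (1 - 1 / Real.log (Real.log x) ^ 2)
      ≤ x ^ (1 - 1 / (4 * Real.log (Real.log x) ^ 2)) := by
  have h1 : ∀ᶠ y : ℝ in atTop, ‖Real.log y ^ 2‖ ≤ (3 / (4 * (K + 1 : ℝ))) * ‖id y‖ :=
    (Real.isLittleO_pow_log_id_atTop (n := 2)).bound (by positivity)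
  have h2 : ∀ᶠ x : ℝ in atTop, ‖Real.log (Real.log x) ^ 2‖
      ≤ (3 / (4 * (K + 1 : ℝ))) * ‖id (Real.log x)‖ := Real.tendsto_log_atTop.eventually h1
  have h3 : ∀ᶠ x : ℝ in atTop, 1 < Real.log (Real.log x) :=
    (Real.tendsto_log_atTop.comp Real.tendsto_log_atTop).eventually_gt_atTop 1
  obtain ⟨X, hX⟩ := eventually_atTop.1 (h2.and (h3.and (eventually_gt_atTop (1 : ℝ))))
  refine ⟨X, fun x hx => ?_⟩
  obtain ⟨e1, e2, e3⟩ := hX x hx
  have hx0 : 0 < x := by linarith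
  refine ⟨hx0, ?_⟩
  set L := Real.log (Real.log x) with hL
  have hlx : 0 < Real.log x := Real.log_pos e3
  have hL0 : 0 < L ^ 2 := by positivity
  rw [Real.norm_of_nonneg hL0.le, id_eq, Real.norm_of_nonneg hlx.le] at e1
  have hK1 : (0 : ℝ) < K + 1 := by positivity
  have e4 : (K + 1 : ℝ) ≤ Real.log x * (3 / (4 * L ^ 2)) := by
    rw [mul_div_assoc', le_div_iff₀ (by positivity)]
    have e5 : L ^ 2 * (4 * (K + 1 : ℝ)) ≤ 3 * Real.log x := by
      have := mul_le_mul_of_nonneg_right e1 (by positivity : (0 : ℝ) ≤ 4 * (K + 1 : ℝ))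
      calc L ^ 2 * (4 * (K + 1 : ℝ)) ≤ 3 / (4 * (K + 1 : ℝ)) * Real.log x * (4 * (K + 1 : ℝ)) := this
        _ = 3 * Real.log x := by field_simp
    linarith
  have e6 : (K : ℝ) ≤ x ^ (3 / (4 * L ^ 2)) := by
    rw [Real.rpow_def_of_pos hx0]
    have := Real.add_one_le_exp (Real.log x * (3 / (4 * L ^ 2)))
    linarith
  calc (K : ℝ) * x ^ (1 - 1 / L ^ 2) ≤ x ^ (3 / (4 * L ^ 2)) * x ^ (1 - 1 / L ^ 2) :=
        mul_le_mul_of_nonneg_right e6 (Real.rpow_nonneg hx0.le _)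
    _ = x ^ (1 - 1 / (4 * L ^ 2)) := by
        rw [← Real.rpow_add hx0]
        congr 1
        field_simp
        ring

theorem dv (hMM0 : StmtMM0) : StmtDV := by
  intro k
  obtain ⟨K, c0, hc0, X0, h0⟩ := hMM0 k
  obtain ⟨X1, h1⟩ := ev K
  have hP : (0 : ℝ) < (K * K.factorial : ℕ) + 1 := by positivity
  refine ⟨c0 / ((K * K.factorial : ℕ) + 1), ((K * K.factorial : ℕ) : ℝ), by positivity,
    max X0 X1, ?_⟩
  intro x hx d hd hdx
  obtain ⟨hx0, h2⟩ := h1 x (le_trans (le_max_right _ _) hx)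
  have hRec : Real.log x * Real.log (Real.log x) ^ 2 *
    Real.log (Real.log (Real.log (Real.log x))) / Real.log (Real.log (Real.log x)) ^ 2
      = Rec x := rfl
  rw [hRec] at hdx
  have hdR : (((K * (K.factorial * d) : ℕ)) : ℝ) ≤ c0 * Rec x := by
    have e1 : (d : ℝ) * ((K * K.factorial : ℕ) + 1) ≤ c0 * Rec x := by
      have := mul_le_mul_of_nonneg_right hdx hP.le
      calc (d : ℝ) * ((K * K.factorial : ℕ) + 1)
          ≤ c0 / ((K * K.factorial : ℕ) + 1) * Rec x * ((K * K.factorial : ℕ) + 1) := this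
        _ = c0 * Rec x := by field_simp
    have e2 : (0 : ℝ) ≤ d := Nat.cast_nonneg _
    push_cast at e1 ⊢
    nlinarith
  set H := (Finset.range K).image (fun i => i * (K.factorial * d)) with hH
  have hMd : 0 < K.factorial * d := Nat.mul_pos (Nat.factorial_pos _) hd
  have hcard : H.card = K := by
    rw [hH, Finset.card_image_of_injective, Finset.card_range]
    intro i j hij
    exact Nat.eq_of_mul_eq_mul_right hMd hij
  have hB : ∀ h ∈ H, h ≤ K * (K.factorial * d) := by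
    intro h hh
    rw [hH, Finset.mem_image] at hh
    obtain ⟨i, hi, rfl⟩ := hh
    exact Nat.mul_le_mul_right _ (Finset.mem_range.1 hi).le
  have hdv : ∀ h ∈ H, d ∣ h := by
    intro h hh
    rw [hH, Finset.mem_image] at hh
    obtain ⟨i, hi, rfl⟩ := hh
    exact Dvd.dvd.mul_left (Dvd.intro_left _ rfl) _
  have h3 := h0 x (le_trans (le_max_left _ _) hx) H hcard
    (fun h hh => le_trans (by exact_mod_cast hB h hh) hdR) (fun l hl => adm K d l hl)
  have h4 := core k d H (K * (K.factorial * d)) hB hdv (c0 * Rec x) x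
    ((K * K.factorial : ℕ) : ℝ) hdR (by push_cast; apply le_of_eq; ring)
  rw [hcard] at h4
  set N := ({n : ℕ | (Nat.nth Nat.Prime (n + k) : ℝ) ≤ x ∧
        (Nat.nth Nat.Prime (n + k) : ℝ) ≤ Nat.nth Nat.Prime n + ((K * K.factorial : ℕ) : ℝ) * d ∧
        ∀ i < k, d ∣ Nat.nth Nat.Prime (n + i + 1) - Nat.nth Nat.Prime (n + i)}.ncard) with hN
  have h5 : (K : ℝ) * x ^ (1 - 1 / Real.log (Real.log x) ^ 2) ≤ N * K := by
    refine le_trans h2 (le_trans h3 ?_)
    exact_mod_cast h4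
  rcases Nat.eq_zero_or_pos K with hK | hK
  · exfalso
    have h6 := le_trans h3 (Nat.cast_le.2 h4)
    rw [hK, Nat.mul_zero, Nat.cast_zero] at h6
    exact absurd h6 (not_le.2 (Real.rpow_pos_of_pos hx0 _))
  · have hK' : (0 : ℝ) < K := by exact_mod_cast hK
    have : x ^ (1 - 1 / Real.log (Real.log x) ^ 2) ≤ (N : ℝ) := by
      refine le_of_mul_le_mul_left ?_ hK'
      linarith
    exact this

end Pool.Agent.Helper58.MC
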